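import Pool.Agent.L5helper99.NCCA.AllDim

/-!
# Reversible three-state number-conserving cellular automata with the von Neumann neighbourhood

In every dimension the only reversible number-conserving cellular automata with state set
`{0, 1, 2}` and the von Neumann neighbourhood are the identity and the shifts by unit vectors.

Proof. A homomorphism `ℤ^d → ℤ` which maps every unit vector to `0`, `1` or `-1` turns the
automaton into a one-dimensional reversible number-conserving automaton of radius one; these are
the identity and the two shifts (number conservation on cycles of length five leaves `144` rules,
and eight collisions of configurations of period at most four exclude `141` of them). The same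
homomorphisms onto `ℤ^2` together with number conservation on the torus of side five show that a
two-dimensional number-conserving rule all of whose four one-dimensional collapses are trivial is
itself trivial. Finally number conservation shows that a rule is determined by the patterns which
live on a line, or on a plane with the centre zero, and these patterns are seen by collapses to the
plane.
-/

set_option autoImplicit false

namespace Pool.Agent.Results.MP_944d6d_mp.AllDimensions

open Pool.Agent.L5helper99.NCCA

/-- **Reversible number-conserving automata are trivial, in all dimensions.** Let `d ≥ 1` and let
`f` be a local rule with states `0, 1, 2` on the von Neumann neighbourhood in `ℤ^d`. If the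
automaton is number-conserving and its global map is injective (for instance, bijective), then the
global map is the identity or the shift by one of the vectors `e_i`, `-e_i`. -/
theorem result (d : ℕ) (hd : 1 ≤ d) (f : (Nbr d → Fin 3) → Fin 3)
    (hN : NumberConserving f) (hR : Function.Injective (globalMap f)) :
    ∃ u : Nbr d, ∀ (x : (Fin d → ℤ) → Fin 3) (v : Fin d → ℤ), globalMap f x v = x (v + off u) := by
  obtain ⟨u, hu⟩ := main hd f hN hR
  exact ⟨u, fun x v => hu _⟩

end Pool.Agent.Results.MP_944d6d_mp.AllDimensions
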